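import Pool.Agent.Q2N.Stmts

/-!
# Squad Q2N, module FDH: the dimension of the functions with bounded poles
-/

set_option autoImplicit false

open Module

namespace Pool.Agent.Q2N.H46

open Pool.Agent.UW Pool.Agent.Q2N

variable {F K : Type} [Field F] [Field K] [Algebra F K]

theorem v_add (S : Dat F K) (p : S.X) {a : WithTop ℤ} {f g : K} (hf : a ≤ S.v p f)
    (hg : a ≤ S.v p g) : a ≤ S.v p (f + g) :=
  (le_min hf hg).trans (AddValuation.map_add (S.v p) f g)

theorem v_smul (S : Dat F K) (p : S.X) {a : WithTop ℤ} {f : K} (c : F) (hf : a ≤ S.v p f) :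
    a ≤ S.v p (c • f) := by
  rw [Algebra.smul_def, AddValuation.map_mul]
  by_cases hc : c = 0
  · rw [hc, map_zero, AddValuation.map_zero, top_add]
    exact le_top
  · rw [S.v_const p c hc, zero_add]
    exact hf

/-- the functions of `U` of order at least `a` at `p` -/
def sub (S : Dat F K) (p : S.X) (a : WithTop ℤ) (U : Submodule F K) : Submodule F K where
  carrier := {f | f ∈ U ∧ a ≤ S.v p f}
  add_mem' := fun hf hg => ⟨U.add_mem hf.1 hg.1, v_add S p hf.2 hg.2⟩
  zero_mem' := ⟨U.zero_mem, by rw [AddValuation.map_zero]; exact le_top⟩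
  smul_mem' := fun c _ hf => ⟨U.smul_mem c hf.1, v_smul S p c hf.2⟩

theorem fdh_aux (S : Dat F K) (N : ℕ) : ∀ (ν : S.X → ℕ), {p | ν p ≠ 0}.Finite →
    ∑ᶠ p, ν p = N → ∀ U : Submodule F K, (∀ f ∈ U, ∀ p, ng (ν p) ≤ S.v p f) →
      FiniteDimensional F U ∧ finrank F U ≤ 1 + N := by
  classical
  induction N with
  | zero =>
    intro ν hν hN U hU
    have h0 : ∀ p, ν p = 0 := by
      intro p
      by_contra hp
      have h1 : ν p ≤ ∑ᶠ p, ν p := single_le_finsum p hν (fun _ => Nat.zero_le _)
      rw [hN] at h1
      exact hp (Nat.le_zero.1 h1)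
    have h1 : U ≤ Submodule.span F {(1 : K)} := by
      intro f hf
      obtain ⟨c, hc⟩ := S.const f (fun p => by
        have h2 := hU f hf p
        rw [h0 p] at h2
        simpa [ng] using h2)
      rw [Submodule.mem_span_singleton]
      exact ⟨c, by rw [← hc, Algebra.smul_def, mul_one]⟩
    have h2 : FiniteDimensional F (Submodule.span F {(1 : K)}) :=
      FiniteDimensional.span_singleton F 1
    refine ⟨Submodule.finiteDimensional_of_le h1, ?_⟩
    have h3 := Submodule.finrank_mono h1
    rw [finrank_span_singleton one_ne_zero] at h3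
    omega
  | succ N ih =>
    intro ν hν hN U hU
    obtain ⟨p, hp⟩ : ∃ p, ν p ≠ 0 := by
      by_contra hc
      have h0 : ∀ p, ν p = 0 := by
        intro p
        by_contra hp
        exact hc ⟨p, hp⟩
      rw [finsum_eq_zero_of_forall_eq_zero h0] at hN
      omega
    set ν' : S.X → ℕ := Function.update ν p (ν p - 1) with hν'
    have hp' : ν' p = ν p - 1 := Function.update_self _ _ _
    have hq' : ∀ q, q ≠ p → ν' q = ν q := fun q hq => Function.update_of_ne hq _ _
    have hfin' : {q | ν' q ≠ 0}.Finite := by
      refine hν.subset fun q hq => ?_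
      by_cases h : q = p
      · rw [h]
        exact hp
      · have h1 : ν' q ≠ 0 := hq
        rw [hq' q h] at h1
        exact h1
    have hsum : ∑ᶠ q, ν' q = N := by
      have h1 : ∀ q, ν q = ν' q + (if q = p then 1 else 0) := by
        intro q
        by_cases h : q = p
        · rw [h, hp', if_pos rfl]
          omega
        · rw [hq' q h, if_neg h, add_zero]
      have h2 : ∑ᶠ q, ν q = ∑ᶠ q, ν' q + ∑ᶠ q, (if q = p then 1 else 0) := by
        rw [← finsum_add_distrib]
        · exact finsum_congr h1
        · exact hfin'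
        · refine (Set.finite_singleton p).subset fun q hq => ?_
          by_contra h
          exact hq (if_neg h)
      have h3 : ∑ᶠ q, (if q = p then 1 else 0) = 1 := by
        rw [finsum_eq_single _ p (fun q hq => if_neg hq), if_pos rfl]
      rw [hN, h3] at h2
      omega
    have hU' : ∀ f ∈ sub S p (ng (ν' p)) U, ∀ q, ng (ν' q) ≤ S.v q f := by
      intro f hf q
      by_cases h : q = p
      · rw [h]
        exact hf.2
      · rw [hq' q h]
        exact hU f hf.1 q
    obtain ⟨i1, i2⟩ := ih ν' hfin' hsum (sub S p (ng (ν' p)) U) hU'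
    by_cases hall : ∀ f ∈ U, ng (ν' p) ≤ S.v p f
    · have h1 : U ≤ sub S p (ng (ν' p)) U := fun f hf => ⟨hf, hall f hf⟩
      refine ⟨Submodule.finiteDimensional_of_le h1, ?_⟩
      have h3 := Submodule.finrank_mono h1
      omega
    · obtain ⟨g, hg, hgv⟩ : ∃ g ∈ U, ¬ ng (ν' p) ≤ S.v p g := by
        by_contra hc
        apply hall
        intro f hf
        by_contra h
        exact hc ⟨f, hf, h⟩
      rw [not_le] at hgv
      have hg0 : g ≠ 0 := by
        rintro rfl
        rw [AddValuation.map_zero] at hgv
        exact absurd hgv (not_lt.2 le_top)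
      -- the values between `-ν p` and `1 - ν p`
      have hval : ∀ f ∈ U, S.v p f < ng (ν' p) → S.v p f = ng (ν p) := by
        intro f hf hlt
        have h1 := hU f hf p
        have h2 : S.v p f ≠ ⊤ := ne_top_of_lt hlt
        obtain ⟨n, hn⟩ := WithTop.ne_top_iff_exists.1 h2
        rw [← hn] at h1 hlt ⊢
        unfold ng at h1 hlt ⊢
        rw [WithTop.coe_le_coe] at h1
        rw [WithTop.coe_lt_coe, hp'] at hlt
        rw [WithTop.coe_eq_coe]
        omega
      have hnext : ∀ f : K, ng (ν p) < S.v p f → ng (ν' p) ≤ S.v p f := by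
        intro f hlt
        by_cases h2 : S.v p f = ⊤
        · rw [h2]
          exact le_top
        · obtain ⟨n, hn⟩ := WithTop.ne_top_iff_exists.1 h2
          rw [← hn] at hlt ⊢
          unfold ng at hlt ⊢
          rw [WithTop.coe_lt_coe] at hlt
          rw [WithTop.coe_le_coe, hp']
          omega
      have h1 : U ≤ sub S p (ng (ν' p)) U ⊔ Submodule.span F {g} := by
        intro f hf
        by_cases hfv : ng (ν' p) ≤ S.v p f
        · exact Submodule.mem_sup_left ⟨hf, hfv⟩
        · rw [not_le] at hfv
          have hf0 : f ≠ 0 := by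
            rintro rfl
            rw [AddValuation.map_zero] at hfv
            exact absurd hfv (not_lt.2 le_top)
          obtain ⟨c, hc⟩ := S.res p f g hf0 hg0 (by rw [hval f hf hfv, hval g hg hgv])
          rw [hval f hf hfv] at hc
          have h2 : f - algebraMap F K c * g ∈ U := by
            rw [← Algebra.smul_def]
            exact U.sub_mem hf (U.smul_mem c hg)
          rw [Submodule.mem_sup]
          refine ⟨f - algebraMap F K c * g, ⟨h2, hnext _ hc⟩, algebraMap F K c * g, ?_, by ring⟩
          rw [← Algebra.smul_def]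
          exact Submodule.smul_mem _ _ (Submodule.mem_span_singleton_self g)
      have h2 : FiniteDimensional F (Submodule.span F {g}) :=
        FiniteDimensional.span_singleton F g
      have h3 : FiniteDimensional F
          (sub S p (ng (ν' p)) U ⊔ Submodule.span F {g} : Submodule F K) := inferInstance
      refine ⟨Submodule.finiteDimensional_of_le h1, ?_⟩
      have h4 := Submodule.finrank_mono h1
      have h5 := Submodule.finrank_add_le_finrank_add_finrank (sub S p (ng (ν' p)) U)
        (Submodule.span F {g})
      rw [finrank_span_singleton hg0] at h5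
      omega

/-- FDH -/
theorem fdh : FdhStmt := by
  intro F K _ _ _ S ν hν U hU
  exact fdh_aux S (∑ᶠ p, ν p) ν hν rfl U hU

end Pool.Agent.Q2N.H46
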